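import Pool.Agent.X886.INV.Main

/-!
# Normal numbers of a basic sequence of positive entropy which are all distribution normal

There is a dynamically generated non-deterministic basic sequence `Q` for which every `Q`-normal
number is `Q`-distribution normal: the set `N(Q) \ DN(Q)` is empty, its Hausdorff dimension is `0`.
The bases of `Q` are `2, 32, 64, 128`; `Q` has positive entropy but can be recovered from its own
random digits (markers for the position and parity checks at all scales for the information).
-/

namespace Pool.Agent.Results.MP_2f0ae6_an.NormalImpliesDistNormal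

open Pool.Agent.X886.INV

/-- Some dynamically generated non-deterministic basic sequence `Q` has `N(Q) \ DN(Q) = ∅`, so that
`N(Q) \ DN(Q)` has Hausdorff dimension `0`. -/
theorem result : ∃ Q : ℕ → ℕ, IsBasic Q ∧ NonDet Q ∧ NormalSet Q \ DistNormalSet Q = ∅ ∧
    dimH (NormalSet Q \ DistNormalSet Q) = 0 := by
  obtain ⟨Q, h1, h2, h3, -⟩ := main
  have h : NormalSet Q \ DistNormalSet Q = ∅ := Set.diff_eq_empty.2 h3
  exact ⟨Q, h1, h2, h, by rw [h, dimH_empty]⟩

end Pool.Agent.Results.MP_2f0ae6_an.NormalImpliesDistNormal
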